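import Pool.Agent.Helper99.SZ.Stmts

set_option autoImplicit false

/-! (PDX) the entries of the determinant, `P`-adically -/

namespace Pool.Helper99.SZ

open NumberField

theorem pdx_desc (m κ : ℕ) :
    ∏ j ∈ Finset.range κ, ((m : ℚ) - (j : ℚ)) = (m.descFactorial κ : ℚ) := by
  induction κ with
  | zero => simp
  | succ κ ih =>
    rw [Finset.prod_range_succ, ih, Nat.descFactorial_succ]
    rcases Nat.lt_or_ge m κ with h | h
    · rw [Nat.descFactorial_eq_zero_iff_lt.2 h]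
      simp
    · push_cast [Nat.cast_sub h]
      ring

/-- the binomial coefficient `(l (X_i + Z) choose κ)` as a polynomial -/
noncomputable def pdxQ {n : ℕ} (l Z κ : ℕ) (i : Fin n) : MvPolynomial (Fin n) ℚ :=
  MvPolynomial.C (1 / (κ.factorial : ℚ)) * ∏ j ∈ Finset.range κ,
    (MvPolynomial.C (l : ℚ) * (MvPolynomial.X i + MvPolynomial.C (Z : ℚ)) -
      MvPolynomial.C (j : ℚ))

theorem pdxQ_deg {n : ℕ} (l Z κ : ℕ) (i : Fin n) : (pdxQ l Z κ i).totalDegree ≤ κ := by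
  unfold pdxQ
  refine (MvPolynomial.totalDegree_mul _ _).trans ?_
  rw [MvPolynomial.totalDegree_C, zero_add]
  refine (MvPolynomial.totalDegree_finset_prod _ _).trans ?_
  have h : ∀ j ∈ Finset.range κ, (MvPolynomial.C (l : ℚ) * (MvPolynomial.X i +
      MvPolynomial.C (Z : ℚ)) - MvPolynomial.C (j : ℚ) : MvPolynomial (Fin n) ℚ).totalDegree
      ≤ 1 := by
    intro j _
    refine (MvPolynomial.totalDegree_sub _ _).trans ?_
    rw [MvPolynomial.totalDegree_C]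
    refine max_le ?_ (Nat.zero_le _)
    refine (MvPolynomial.totalDegree_mul _ _).trans ?_
    rw [MvPolynomial.totalDegree_C, zero_add]
    refine (MvPolynomial.totalDegree_add _ _).trans ?_
    rw [MvPolynomial.totalDegree_C, MvPolynomial.totalDegree_X]
    simp
  refine (Finset.sum_le_sum h).trans ?_
  simp

theorem pdxQ_eval {n : ℕ} (l Z κ : ℕ) (i : Fin n) (z : Fin n → ℤ) (N : ℕ)
    (hN : (N : ℤ) = z i + Z) :
    MvPolynomial.eval (fun i => ((z i : ℤ) : ℚ)) (pdxQ l Z κ i) = (((l * N).choose κ : ℕ) : ℚ) := by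
  unfold pdxQ
  have hN2 : (N : ℚ) = (z i : ℚ) + Z := by exact_mod_cast congrArg (fun t : ℤ => (t : ℚ)) hN
  rw [map_mul, MvPolynomial.eval_C, map_prod]
  have h1 : ∏ j ∈ Finset.range κ, MvPolynomial.eval (fun i => ((z i : ℤ) : ℚ))
      (MvPolynomial.C (l : ℚ) * (MvPolynomial.X i + MvPolynomial.C (Z : ℚ)) -
        MvPolynomial.C (j : ℚ)) = ((l * N).descFactorial κ : ℚ) := by
    rw [← pdx_desc]
    refine Finset.prod_congr rfl fun j _ => ?_
    simp only [map_sub, map_mul, map_add, MvPolynomial.eval_C, MvPolynomial.eval_X]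
    push_cast
    rw [hN2]
  rw [h1, Nat.descFactorial_eq_factorial_mul_choose]
  have h2 : (κ.factorial : ℚ) ≠ 0 := by exact_mod_cast κ.factorial_ne_zero
  push_cast
  field_simp

theorem pdx_one {L : Type} [Field L] [NumberField L] (P : Ideal (𝓞 L)) (hP : P.IsPrime)
    (hP0 : P ≠ ⊥) (h1 : ST_DVB) : Dv P 0 (1 : L) := by
  have := (h1 L P hP hP0).1 1
  simpa using this

theorem pdx_prod {L : Type} [Field L] [NumberField L] (P : Ideal (𝓞 L)) (hP : P.IsPrime)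
    (hP0 : P ≠ ⊥) (h1 : ST_DVB) {α : Type*} (s : Finset α) (t : α → ℕ) (x : α → L)
    (hx : ∀ i ∈ s, Dv P (t i) (x i)) : Dv P (∑ i ∈ s, t i) (∏ i ∈ s, x i) := by
  classical
  induction s using Finset.induction_on with
  | empty => simpa using pdx_one P hP hP0 h1
  | insert a s ha ih =>
    rw [Finset.sum_insert ha, Finset.prod_insert ha]
    exact (h1 L P hP hP0).2.2.2.2.1 _ _ _ _ (hx a (Finset.mem_insert_self a s))
      (ih fun i hi => hx i (Finset.mem_insert_of_mem hi))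

theorem pdx_prod0 {L : Type} [Field L] [NumberField L] (P : Ideal (𝓞 L)) (hP : P.IsPrime)
    (hP0 : P ≠ ⊥) (h1 : ST_DVB) {α : Type*} (s : Finset α) (x : α → L)
    (hx : ∀ i ∈ s, Dv P 0 (x i)) : Dv P 0 (∏ i ∈ s, x i) := by
  have := pdx_prod P hP hP0 h1 s (fun _ => 0) x hx
  simpa using this

theorem pdx_pow {L : Type} [Field L] [NumberField L] (P : Ideal (𝓞 L)) (hP : P.IsPrime)
    (hP0 : P ≠ ⊥) (h1 : ST_DVB) (t : ℕ) (x : L) (hx : Dv P t x) (k : ℕ) :
    Dv P (k * t) (x ^ k) := by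
  have := pdx_prod P hP hP0 h1 (Finset.range k) (fun _ => t) (fun _ => x) (fun _ _ => hx)
  simpa using this

theorem pdx_pow0 {L : Type} [Field L] [NumberField L] (P : Ideal (𝓞 L)) (hP : P.IsPrime)
    (hP0 : P ≠ ⊥) (h1 : ST_DVB) (x : L) (hx : Dv P 0 x) (k : ℕ) : Dv P 0 (x ^ k) := by
  have := pdx_pow P hP hP0 h1 0 x hx k
  simpa using this

/-- the binomial theorem with a larger range -/
theorem pdx_binom {L : Type} [Field L] (u : L) (N B : ℕ) (h : N < B) :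
    (1 + u) ^ N = ∑ κ : Fin B, ((N.choose (κ : ℕ) : ℕ) : L) * u ^ (κ : ℕ) := by
  rw [add_comm, add_pow, Fin.sum_univ_eq_sum_range (fun κ => ((N.choose κ : ℕ) : L) * u ^ κ) B]
  have h1 : Finset.range (N + 1) ⊆ Finset.range B := Finset.range_subset_range.2 h
  rw [← Finset.sum_subset h1]
  · refine Finset.sum_congr rfl fun κ _ => ?_
    simp [mul_comm]
  · intro κ _ hκ
    rw [Finset.mem_range, not_lt] at hκ
    rw [Nat.choose_eq_zero_of_lt (by omega)]
    simp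

theorem pdx_core {L : Type} [Field L] [NumberField L] (P : Ideal (𝓞 L)) (hP : P.IsPrime)
    (hP0 : P ≠ ⊥) (h1 : ST_DVB) (n v K T : ℕ) (J : Fin v → Fin n) (ι : Type) [Fintype ι]
    (z : ι → Fin n → ℤ) (g : Fin n → L) (hg : ∀ i, Dv P 1 (g i - 1)) (w : ι → L) (hT : 1 ≤ T)
    (hw : ∀ r, Dv P T (w r - 1)) (e : Fin v → Fin K) (l : ℕ) :
    ∃ (s : ℕ) (c : Fin s → L) (a : Fin s → ℕ) (y : Fin s → ι → ℤ) (ω : L) (err : ι → L),
        Dv P 0 ω ∧ (∀ k, Dv P (a k) (c k)) ∧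
        (∀ k, ∃ f : MvPolynomial (Fin n) ℚ, f.totalDegree ≤ v * K + a k ∧
          ∀ r, MvPolynomial.eval (fun i => ((z r i : ℤ) : ℚ)) f = ((y k r : ℤ) : ℚ)) ∧
        (∀ r, Dv P T (err r)) ∧
        ∀ r, (∏ i, ((z r (J i) : ℤ) : L) ^ (e i : ℕ)) * ((∏ i, g i ^ (z r i)) * w r) ^ l =
          ω * ∑ k, c k * ((y k r : ℤ) : L) + err r := by
  classical
  have D := h1 L P hP hP0
  have hg0 : ∀ i, g i ≠ 0 ∧ Dv P 0 (g i) ∧ Dv P 0 (g i)⁻¹ := fun i => D.2.2.2.2.2.1 _ (hg i)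
  -- the shift
  obtain ⟨Z, hZ⟩ : ∃ Z : ℕ, ∀ r i, 0 ≤ z r i + Z := by
    refine ⟨∑ r, ∑ i, (z r i).natAbs, fun r i => ?_⟩
    have h2 : (z r i).natAbs ≤ ∑ r, ∑ i, (z r i).natAbs :=
      (Finset.single_le_sum (f := fun i => (z r i).natAbs) (fun _ _ => Nat.zero_le _)
        (Finset.mem_univ i)).trans
        (Finset.single_le_sum (f := fun r => ∑ i, (z r i).natAbs) (fun _ _ => Nat.zero_le _)
          (Finset.mem_univ r))
    omega
  obtain ⟨N, hN⟩ : ∃ N : ι → Fin n → ℕ, ∀ r i, (N r i : ℤ) = z r i + Z :=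
    ⟨fun r i => (z r i + Z).toNat, fun r i => Int.toNat_of_nonneg (hZ r i)⟩
  obtain ⟨B, hB⟩ : ∃ B : ℕ, ∀ r i, l * N r i < B := by
    refine ⟨(∑ r, ∑ i, l * N r i) + 1, fun r i => ?_⟩
    have h2 : l * N r i ≤ ∑ r, ∑ i, l * N r i :=
      (Finset.single_le_sum (f := fun i => l * N r i) (fun _ _ => Nat.zero_le _)
        (Finset.mem_univ i)).trans
        (Finset.single_le_sum (f := fun r => ∑ i, l * N r i) (fun _ _ => Nat.zero_le _)
          (Finset.mem_univ r))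
    omega
  obtain ⟨φ⟩ : Nonempty (Fin (Fintype.card (Fin n → Fin B)) ≃ (Fin n → Fin B)) :=
    ⟨(Fintype.equivFin _).symm⟩
  -- the main part
  obtain ⟨Am, hAm⟩ : ∃ Am : ι → L, ∀ r, Am r =
      (∏ i, ((z r (J i) : ℤ) : L) ^ (e i : ℕ)) * (∏ i, g i ^ (z r i)) ^ l := ⟨_, fun _ => rfl⟩
  refine ⟨Fintype.card (Fin n → Fin B), fun k => ∏ i, (g i - 1) ^ (φ k i : ℕ),
    fun k => ∑ i, (φ k i : ℕ),
    fun k r => (∏ i, (z r (J i)) ^ (e i : ℕ)) * ∏ i, (((l * N r i).choose (φ k i : ℕ) : ℕ) : ℤ),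
    ∏ i, ((g i)⁻¹ ^ Z) ^ l, fun r => Am r * (w r ^ l - 1), ?_, ?_, ?_, ?_, ?_⟩
  · refine pdx_prod0 P hP hP0 h1 _ _ fun i _ => ?_
    exact pdx_pow0 P hP hP0 h1 _ (pdx_pow0 P hP hP0 h1 _ (hg0 i).2.2 Z) l
  · intro k
    refine pdx_prod P hP hP0 h1 _ _ _ fun i _ => ?_
    have := pdx_pow P hP hP0 h1 1 _ (hg i) (φ k i : ℕ)
    simpa using this
  · intro k
    refine ⟨(∏ i, MvPolynomial.X (J i) ^ (e i : ℕ)) * ∏ i, pdxQ l Z (φ k i : ℕ) i, ?_, ?_⟩
    · refine (MvPolynomial.totalDegree_mul _ _).trans (Nat.add_le_add ?_ ?_)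
      · refine (MvPolynomial.totalDegree_finset_prod _ _).trans ?_
        have h2 : ∀ i ∈ (Finset.univ : Finset (Fin v)),
            (MvPolynomial.X (J i) ^ (e i : ℕ) : MvPolynomial (Fin n) ℚ).totalDegree ≤ K := by
          intro i _
          rw [MvPolynomial.totalDegree_X_pow]
          exact (e i).2.le
        refine (Finset.sum_le_sum h2).trans ?_
        simp
      · refine (MvPolynomial.totalDegree_finset_prod _ _).trans ?_
        exact Finset.sum_le_sum fun i _ => pdxQ_deg l Z _ i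
    · intro r
      rw [map_mul, map_prod, map_prod]
      have h2 : ∏ i, MvPolynomial.eval (fun i => ((z r i : ℤ) : ℚ))
          (MvPolynomial.X (J i) ^ (e i : ℕ) : MvPolynomial (Fin n) ℚ) =
          ∏ i, ((z r (J i) : ℤ) : ℚ) ^ (e i : ℕ) := by
        refine Finset.prod_congr rfl fun i _ => ?_
        rw [map_pow, MvPolynomial.eval_X]
      have h3 : ∏ i, MvPolynomial.eval (fun i => ((z r i : ℤ) : ℚ)) (pdxQ l Z (φ k i : ℕ) i) =
          ∏ i, (((l * N r i).choose (φ k i : ℕ) : ℕ) : ℚ) :=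
        Finset.prod_congr rfl fun i _ => pdxQ_eval l Z _ i (z r) (N r i) (hN r i)
      rw [h2, h3]
      push_cast
      rfl
  · intro r
    have h2 : Dv P 0 (Am r) := by
      rw [hAm]
      have h3 : Dv P 0 (∏ i, ((z r (J i) : ℤ) : L) ^ (e i : ℕ)) := by
        refine pdx_prod0 P hP hP0 h1 _ _ fun i _ => pdx_pow0 P hP hP0 h1 _ ?_ _
        have := D.1 ((z r (J i) : ℤ) : 𝓞 L)
        simpa using this
      have h4 : Dv P 0 ((∏ i, g i ^ (z r i)) ^ l) := by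
        refine pdx_pow0 P hP hP0 h1 _ (pdx_prod0 P hP hP0 h1 _ _ fun i _ => ?_) _
        exact (D.2.2.2.2.2.1 _ (D.2.2.2.2.2.2.1 1 (g i) (z r i) le_rfl (hg i))).2.1
      have := D.2.2.2.2.1 0 0 _ _ h3 h4
      simpa using this
    have h5 : Dv P T (w r ^ l - 1) := by
      have := D.2.2.2.2.2.2.1 T (w r) (l : ℤ) hT (hw r)
      simpa using this
    have := D.2.2.2.2.1 0 T _ _ h2 h5
    simpa using this
  · intro r
    have hmain : Am r = (∏ i, ((g i)⁻¹ ^ Z) ^ l) * ∑ k, (∏ i, (g i - 1) ^ (φ k i : ℕ)) *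
        (((∏ i, (z r (J i)) ^ (e i : ℕ)) *
          ∏ i, (((l * N r i).choose (φ k i : ℕ) : ℕ) : ℤ) : ℤ) : L) := by
      have h2 : (∏ i, g i ^ (z r i)) ^ l = (∏ i, ((g i)⁻¹ ^ Z) ^ l) * ∏ i, g i ^ (l * N r i) := by
        rw [← Finset.prod_pow, ← Finset.prod_mul_distrib]
        refine Finset.prod_congr rfl fun i _ => ?_
        have h3 : z r i = -(Z : ℤ) + (N r i : ℤ) := by
          rw [hN]
          ring
        rw [mul_comm l, pow_mul, ← mul_pow, h3, zpow_add₀ (hg0 i).1, zpow_neg, zpow_natCast,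
          zpow_natCast, inv_pow]
      have h4 : ∏ i, g i ^ (l * N r i) = ∑ k, ∏ i,
          (((l * N r i).choose (φ k i : ℕ) : ℕ) : L) * (g i - 1) ^ (φ k i : ℕ) := by
        have h5 : ∀ i, g i ^ (l * N r i) = ∑ κ : Fin B,
            (((l * N r i).choose (κ : ℕ) : ℕ) : L) * (g i - 1) ^ (κ : ℕ) := by
          intro i
          rw [← pdx_binom (g i - 1) (l * N r i) B (hB r i)]
          congr 1
          ring
        rw [Finset.prod_congr rfl fun i _ => h5 i, Finset.prod_univ_sum]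
        rw [Fintype.piFinset_univ]
        exact (Equiv.sum_comp φ (fun κ : Fin n → Fin B => ∏ i,
          (((l * N r i).choose (κ i : ℕ) : ℕ) : L) * (g i - 1) ^ (κ i : ℕ))).symm
      rw [hAm, h2, h4, mul_left_comm, Finset.mul_sum]
      congr 1
      refine Finset.sum_congr rfl fun k _ => ?_
      rw [Finset.prod_mul_distrib]
      push_cast
      ring
    rw [← hmain, mul_pow, ← mul_assoc, ← hAm]
    ring

theorem st_PDX (h1 : ST_DVB) (h2 : ST_DEGV) : ST_PDX := by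
  intro L _ _ P hP hP0 n v K R T V hV J ι _ z hz g hg w hT hw
  obtain ⟨W, hW1, hW2⟩ : ∃ W : Submodule ℚ (ι → ℚ), Module.finrank ℚ W ≤ R ^ v ∧
      ∀ f : MvPolynomial (Fin n) ℚ, f.totalDegree < R →
        (fun r => MvPolynomial.eval (fun i => ((z r i : ℤ) : ℚ)) f) ∈ W := by
    rcases Nat.eq_zero_or_pos R with h0 | h0
    · refine ⟨⊥, by simp, fun f hf => ?_⟩
      omega
    · obtain ⟨W, hW1, hW2⟩ := h2 n v (R - 1) ι V hV z hz
      refine ⟨W, ?_, fun f hf => hW2 f (by omega)⟩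
      rwa [Nat.sub_add_cancel h0] at hW1
  refine ⟨W, hW1, fun e l => ?_⟩
  obtain ⟨s, c, a, y, ω, err, g1, g2, g3, g4, g5⟩ :=
    pdx_core P hP hP0 h1 n v K T J ι z g hg w hT hw e l
  refine ⟨s, c, a, y, ω, err, g1, g2, fun k hk => ?_, g4, g5⟩
  obtain ⟨f, hf1, hf2⟩ := g3 k
  have h3 := hW2 f (lt_of_le_of_lt hf1 hk)
  have h4 : (fun r => MvPolynomial.eval (fun i => ((z r i : ℤ) : ℚ)) f) =
      fun r => ((y k r : ℤ) : ℚ) := funext hf2
  rwa [h4] at h3

end Pool.Helper99.SZ
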